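import Pool.Agent.helper17.STA.SpecB

/-!
# Row st:STATIC (MP_70a088_an, RAT2): the static block, final form (helper13)
-/

set_option autoImplicit false

open Complex Metric Set Filter Topology MeasureTheory

noncomputable section

namespace STA

theorem STATIC (hSTF : STF_stmt) (hSRT : SRT_stmt) : STATIC_stmt := by
  intro Y J μ hS hG hJ hN hI N hN10
  obtain ⟨e₁, he₁, H⟩ := hSTF Y J μ hS hG hJ hI N hN10
  refine ⟨min e₁ (1 / 10 ^ 5), lt_min he₁ (by norm_num), ?_⟩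
  intro e he he' M₀ hM₀
  obtain ⟨η, ε, hη, hε, HF⟩ := H e he (he'.trans (min_le_left _ _))
  have h14 : (0 : ℝ) < 1 / 10 ^ 14 := by norm_num
  obtain ⟨del, ρ, hdel, hρ, hρ1, HS⟩ := hSRT Y J μ hS hN hI e (min (min ε M₀) (1 / 10 ^ 14)) η he (he'.trans (min_le_right _ _))
    (lt_min (lt_min hε hM₀) h14) (min_le_right _ _) hη
  refine ⟨del, ρ, hdel, hρ, hρ1, ?_⟩
  intro U y r c hP h q hQ
  filter_upwards [HS U y r c hP h q hQ] with j hj
  obtain ⟨y', r', hy', hd, hr', hv, hcase⟩ := hj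
  refine ⟨y', r', hy', hd, hr', ?_⟩
  have hr0 : 0 < ‖r j‖ := norm_pos_iff.2 (hP.r0 j)
  have hr'0 : r' ≠ 0 := by
    rw [← norm_pos_iff, hr']
    positivity
  have hr'1 : ‖r'‖ ≤ 1 := by
    rw [hr']
    have := hP.r1 j
    nlinarith
  rcases hcase with ⟨M, hM0, hMε, hM⟩ | ⟨s, a, b, hs, hO, -⟩
  · left
    obtain ⟨wp, wq, hVX, HF2⟩ := HF y' r' c hr'0 hr'1 hP.c1 hv
    obtain ⟨σ, a, b, hLev, hab, -⟩ := hM wp wq hVX
    have h1 : M ≤ ε := hMε.trans ((min_le_left _ _).trans (min_le_left _ _))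
    obtain ⟨l, σ', a', b', k, hOut, hE⟩ := HF2 M σ a b hM0 h1 hLev hab
    exact ⟨wp, wq, M, σ', l, a', b', k, hVX, hM0, hMε.trans ((min_le_left _ _).trans (min_le_right _ _)),
      hMε.trans (min_le_right _ _), hOut, hE⟩
  · right
    exact ⟨s, a, b, hs.trans ((min_le_left _ _).trans (min_le_right _ _)), hs.trans (min_le_right _ _), hO⟩

end STA
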